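import Pool.Agent.Helper98_PSC.HidDefs

set_option autoImplicit false

/-!
The algebraic identity for cliques.
-/

namespace Pool.Agent.Helper98_PSC

open Pool.Agent.PSC Pool.Agent.Helper40_Pisot MeasureTheory

variable {m : ℕ}

theorem mon_mul (v w : Lat m) : mon v * mon w = (mon (v + w) : R m) := by
  unfold mon
  rw [AddMonoidAlgebra.single_mul_single, one_mul]

theorem supp_mon_mul (v : Lat m) (x : R m) {w : Lat m}
    (h : w ∈ (mon v * x).coeff.support) : ∃ w' ∈ x.coeff.support, w = v + w' := by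
  refine ⟨-v + w, ?_, by abel⟩
  rw [Finsupp.mem_support_iff] at h ⊢
  intro h0
  apply h
  unfold mon
  rw [AddMonoidAlgebra.coeff_single_mul_apply, h0, mul_zero]

theorem ht_add (l : Fin (m + 1) → ℝ) (v w : Lat m) : ht l (v + w) = ht l v + ht l w := by
  unfold ht
  rw [← Finset.sum_add_distrib]
  refine Finset.sum_congr rfl (fun i _ => ?_)
  rw [Pi.add_apply]
  push_cast
  ring

theorem ht_zero (l : Fin (m + 1) → ℝ) : ht l (0 : Lat m) = 0 := by
  unfold ht
  simp

theorem alive_tr (l : Fin (m + 1) → ℝ) (t : ℝ) (v : Lat m) (F : Face m) :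
    Alive l t (tr v F) ↔ Alive l (t - ht l v) F := by
  unfold Alive
  show ht l (v + F.1) ≤ t ∧ t < ht l (v + F.1) + l F.2 ↔ _
  rw [ht_add]
  constructor
  · rintro ⟨h1, h2⟩
    exact ⟨by linarith, by linarith⟩
  · rintro ⟨h1, h2⟩
    exact ⟨by linarith, by linarith⟩

theorem aliveS_trS (l : Fin (m + 1) → ℝ) (t : ℝ) (v : Lat m) (C : Finset (Face m)) :
    AliveS l t (trS v C) ↔ AliveS l (t - ht l v) C := by
  unfold AliveS
  constructor
  · intro h F hF
    exact (alive_tr l t v F).1 (h _ (Finset.mem_image_of_mem _ hF))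
  · intro h F hF
    obtain ⟨G, hG, rfl⟩ := Finset.mem_image.1 hF
    exact (alive_tr l t v G).2 (h G hG)

/-- Faces in a box. -/
noncomputable def box (m : ℕ) (K : ℤ) : Finset (Face m) :=
  (Fintype.piFinset fun _ => Finset.Icc (-K) K) ×ˢ Finset.univ

theorem mem_box {K : ℤ} {F : Face m} : F ∈ box m K ↔ ∀ i, |F.1 i| ≤ K := by
  unfold box
  rw [Finset.mem_product, Fintype.mem_piFinset]
  constructor
  · rintro ⟨h, -⟩ i
    exact abs_le.2 (Finset.mem_Icc.1 (h i))
  · intro h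
    exact ⟨fun i => Finset.mem_Icc.2 (abs_le.1 (h i)), Finset.mem_univ _⟩

theorem trS_inj (v : Lat m) : Function.Injective (trS v : Finset (Face m) → Finset (Face m)) := by
  intro A B h
  have := congrArg (trS (-v)) h
  rwa [trS_trS, trS_trS, neg_add_cancel, trS_zero, trS_zero] at this

/-- The identity for cliques. -/
theorem hid (hRel : RelStmt) (hLin : LinAlgStmt) (hNov : NovStmt) (hCl : CliqueStmt)
    (hA : LatAStmt)
    (hRO : ∀ (m : ℕ) (σ : Fin (m + 1) → List (Fin (m + 1)))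
      (M : Matrix (Fin (m + 1)) (Fin (m + 1)) ℤ)
      (r : ℝ) (α l : Fin (m + 1) → ℝ) (a0 : Fin (m + 1)) (x0 : ℤ → Fin (m + 1)),
      Dat σ M r α l a0 x0 → ∀ k : ℕ, 1 ≤ k → Mult σ α l x0 k → RelOf m σ α l x0 k) :
    HidStmt := by
  classical
  intro m σ M r α l a0 x0 D k hk hM H
  obtain ⟨⟨K, hK⟩, -, htr, -⟩ := hCl m σ M r α l a0 x0 D k hk hM
  obtain ⟨hinj, -, -⟩ := hA m σ M r α l a0 x0 D
  have hne : ∀ C, Clique σ α l x0 k C → C.Nonempty := fun C hC =>
    Finset.card_pos.1 (by rw [hC.1]; omega)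
  have htr' : ∀ (v : Lat m) (C : Finset (Face m)),
      Clique σ α l x0 k (trS v C) ↔ Clique σ α l x0 k C := by
    intro v C
    refine ⟨fun h => ?_, htr v C⟩
    have := htr (-v) _ h
    rwa [trS_trS, neg_add_cancel, trS_zero] at this
  -- the finite sets of types and patterns
  let TS : Finset (Finset (Face m)) :=
    (box m K).powerset.filter (fun C => Clique σ α l x0 k C ∧ bas C = 0)
  let PS : Finset (Fin (m + 1) × Finset (Finset (Face m))) :=
    ((Finset.univ : Finset (Fin (m + 1))) ×ˢ (box m K).powerset.powerset).filter (fun p =>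
      ∃ t : ℝ, Alive l t ((0 : Lat m), p.1) ∧
        ∀ C, C ∈ p.2 ↔ Clique σ α l x0 k C ∧ AliveS l t C ∧ ((0 : Lat m), p.1) ∈ C)
  have hTS : ∀ C, C ∈ TS ↔ Clique σ α l x0 k C ∧ bas C = 0 := by
    intro C
    show C ∈ (box m K).powerset.filter _ ↔ _
    rw [Finset.mem_filter]
    refine ⟨fun h => h.2, fun h => ⟨?_, h⟩⟩
    rw [Finset.mem_powerset]
    intro F hF
    rw [mem_box]
    intro i
    obtain ⟨⟨G, hG, hGe⟩, -⟩ := bas_spec (hne C h.1) i
    have h1 := hK C h.1 F hF G hG i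
    rw [hGe, h.2] at h1
    simpa using h1
  have hPS : ∀ p, p ∈ PS ↔ ∃ t : ℝ, Alive l t ((0 : Lat m), p.1) ∧
      ∀ C, C ∈ p.2 ↔ Clique σ α l x0 k C ∧ AliveS l t C ∧ ((0 : Lat m), p.1) ∈ C := by
    intro p
    show p ∈ Finset.filter _ _ ↔ _
    rw [Finset.mem_filter]
    refine ⟨fun h => h.2, fun h => ⟨?_, h⟩⟩
    rw [Finset.mem_product]
    refine ⟨Finset.mem_univ _, ?_⟩
    rw [Finset.mem_powerset]
    intro C hC
    rw [Finset.mem_powerset]
    intro F hF
    rw [mem_box]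
    intro i
    obtain ⟨t, -, h2⟩ := h
    obtain ⟨h3, -, h5⟩ := (h2 C).1 hC
    have h1 := hK C h3 F hF _ h5 i
    simpa using h1
  -- linear algebra
  have hlin := hLin (R m) {C // C ∈ TS} {p // p ∈ PS} (Fin (m + 1) × Fin (m + 1))
    (fun p τ => rw p.1.2 τ.1) (fun p κ => wdg p.1.1 κ.1 κ.2) (by
      intro y hy κ
      have hr : Rel σ α x0 (fun c => ∑ p : {p // p ∈ PS}, if p.1.1 = c then y p else 0) :=
        hRO m σ M r α l a0 x0 D k hk hM TS PS hTS (fun p hp => (hPS p).1 hp) y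
          (fun τ hτ => hy ⟨τ, hτ⟩)
      have h2 := hRel m σ M r α l a0 x0 D _ hr κ.1 κ.2
      have h3 : ∀ p : {p // p ∈ PS}, y p * wdg p.1.1 κ.1 κ.2 =
          (if p.1.1 = κ.1 then y p else 0) * uv κ.2 -
            (if p.1.1 = κ.2 then y p else 0) * uv κ.1 := by
        intro p
        unfold wdg
        split_ifs <;> ring
      show ∑ p : {p // p ∈ PS}, y p * wdg p.1.1 κ.1 κ.2 = 0
      rw [Finset.sum_congr rfl (fun p _ => h3 p), Finset.sum_sub_distrib, ← Finset.sum_mul,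
        ← Finset.sum_mul]
      exact sub_eq_zero.2 h2)
  obtain ⟨f, hf0, L0, hL0⟩ := hlin
  obtain ⟨g, q, hgq, hq⟩ := hNov m l hinj f hf0 H
  -- the bound
  let U : Finset (Lat m) := (Finset.univ : Finset ({C // C ∈ TS} × (Fin (m + 1) × Fin (m + 1)))).biUnion
    (fun x => (g * L0 x.1 x.2).coeff.support)
  let ρ0 : ℤ := ∑ v ∈ U, ∑ i, |v i|
  have hρ0 : ∀ (τ : {C // C ∈ TS}) (κ : Fin (m + 1) × Fin (m + 1)),
      ∀ v ∈ (g * L0 τ κ).coeff.support, ∀ i, |v i| ≤ ρ0 := by
    intro τ κ v hv i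
    have hvU : v ∈ U := Finset.mem_biUnion.2 ⟨(τ, κ), Finset.mem_univ _, hv⟩
    have h1 : |v i| ≤ ∑ i, |v i| :=
      Finset.single_le_sum (f := fun i => |v i|) (fun j _ => abs_nonneg _) (Finset.mem_univ i)
    have h2 : ∑ i, |v i| ≤ ρ0 :=
      Finset.single_le_sum (f := fun v : Lat m => ∑ i, |v i|)
        (fun w _ => Finset.sum_nonneg (fun j _ => abs_nonneg _)) hvU
    exact h1.trans h2
  let L : Finset (Face m) → Fin (m + 1) → Fin (m + 1) → R m := fun C a b =>
    if h : nrm C ∈ TS then mon (bas C) * (g * L0 ⟨nrm C, h⟩ (a, b)) else 0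
  have hLdef : ∀ C a b (h : nrm C ∈ TS), L C a b = mon (bas C) * (g * L0 ⟨nrm C, h⟩ (a, b)) := by
    intro C a b h
    show (if h : nrm C ∈ TS then mon (bas C) * (g * L0 ⟨nrm C, h⟩ (a, b)) else 0) = _
    rw [dif_pos h]
  have hnrm : ∀ C, Clique σ α l x0 k C → nrm C ∈ TS := by
    intro C hC
    rw [hTS]
    exact ⟨(htr' _ _).2 hC, bas_nrm (hne C hC)⟩
  refine ⟨q, ρ0 + K, L, hq, ?_, ?_⟩
  · intro C hC a b v hv F hF i
    rw [hLdef C a b (hnrm C hC)] at hv
    obtain ⟨w, hw, rfl⟩ := supp_mon_mul _ _ hv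
    have h1 := hρ0 _ _ w hw i
    obtain ⟨⟨G, hG, hGe⟩, h3⟩ := bas_spec (hne C hC) i
    have h4 := hK C hC F hF G hG i
    rw [hGe] at h4
    rw [Pi.add_apply]
    have h5 : bas C i + w i - F.1 i = w i - (F.1 i - bas C i) := by ring
    rw [h5]
    exact (abs_sub _ _).trans (add_le_add h1 h4)
  · intro t F hF S hS a b
    have hmemS0 : ∀ C, C ∈ S.image (trS (-F.1)) ↔ trS F.1 C ∈ S := by
      intro C
      rw [Finset.mem_image]
      constructor
      · rintro ⟨B, hB, rfl⟩
        rw [trS_trS, add_neg_cancel, trS_zero]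
        exact hB
      · intro h
        exact ⟨_, h, by rw [trS_trS, neg_add_cancel, trS_zero]⟩
    have hp0 : (F.2, S.image (trS (-F.1))) ∈ PS := by
      rw [hPS]
      refine ⟨t - ht l F.1, ?_, ?_⟩
      · unfold Alive at hF ⊢
        show ht l (0 : Lat m) ≤ _ ∧ _ < ht l (0 : Lat m) + l F.2
        rw [ht_zero]
        exact ⟨by linarith [hF.1], by linarith [hF.2]⟩
      · intro C
        show C ∈ S.image (trS (-F.1)) ↔ Clique σ α l x0 k C ∧ AliveS l (t - ht l F.1) C ∧
          ((0 : Lat m), F.2) ∈ C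
        rw [hmemS0, hS, htr', aliveS_trS, mem_trS]
        have : tr (-F.1) F = ((0 : Lat m), F.2) := by
          unfold tr
          rw [neg_add_cancel]
        rw [this]
    have h1 := hL0 ⟨_, hp0⟩ (a, b)
    have h1' : f * wdg F.2 a b = ∑ τ : {C // C ∈ TS},
        rw (S.image (trS (-F.1))) τ.1 * L0 τ (a, b) := h1
    have h2 : wdg F.2 a b - q * wdg F.2 a b =
        ∑ C ∈ S.image (trS (-F.1)), L C a b := by
      have h3 : wdg F.2 a b - q * wdg F.2 a b = g * (f * wdg F.2 a b) := by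
        rw [← mul_assoc, hgq]; ring
      rw [h3, h1', Finset.mul_sum]
      unfold rw
      have h4 : ∀ τ : {C // C ∈ TS},
          g * ((∑ C ∈ S.image (trS (-F.1)), if nrm C = τ.1 then (mon (bas C) : R m) else 0) *
            L0 τ (a, b)) =
          ∑ C ∈ S.image (trS (-F.1)),
            if nrm C = τ.1 then mon (bas C) * (g * L0 τ (a, b)) else 0 := by
        intro τ
        rw [Finset.sum_mul, Finset.mul_sum]
        refine Finset.sum_congr rfl (fun C _ => ?_)
        split_ifs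
        · ring
        · ring
      rw [Finset.sum_congr rfl (fun τ _ => h4 τ), Finset.sum_comm]
      refine Finset.sum_congr rfl (fun C hC => ?_)
      have hC1 : Clique σ α l x0 k C := by
        have := (hmemS0 C).1 hC
        exact (htr' _ _).1 ((hS _).1 this).1
      rw [hLdef C a b (hnrm C hC1)]
      rw [Finset.sum_eq_single (⟨nrm C, hnrm C hC1⟩ : {C // C ∈ TS})]
      · rw [if_pos rfl]
      · intro τ _ hτ
        rw [if_neg]
        intro h
        exact hτ (Subtype.ext h.symm)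
      · intro h
        exact absurd (Finset.mem_univ _) h
    have h5 : ∀ C ∈ S.image (trS (-F.1)), mon F.1 * L C a b = L (trS F.1 C) a b := by
      intro C hC
      have hC1 : Clique σ α l x0 k C := by
        have := (hmemS0 C).1 hC
        exact (htr' _ _).1 ((hS _).1 this).1
      have hC2 : Clique σ α l x0 k (trS F.1 C) := (htr' _ _).2 hC1
      have h7 : (⟨nrm (trS F.1 C), hnrm _ hC2⟩ : {C // C ∈ TS}) = ⟨nrm C, hnrm C hC1⟩ :=
        Subtype.ext (nrm_trS _ (hne C hC1))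
      rw [hLdef C a b (hnrm C hC1), hLdef _ a b (hnrm _ hC2), bas_trS _ (hne C hC1), ← mon_mul,
        mul_assoc, h7]
    have h6 : mon F.1 * (wdg F.2 a b - q * wdg F.2 a b) = ∑ C ∈ S, L C a b := by
      rw [h2, Finset.mul_sum, Finset.sum_congr rfl h5,
        Finset.sum_image (fun A _ B _ h => trS_inj _ h)]
      refine Finset.sum_congr rfl (fun C _ => ?_)
      rw [trS_trS, add_neg_cancel, trS_zero]
    rw [← h6]
    ring

end Pool.Agent.Helper98_PSC
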