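import Pool.Agent.Helper95_PSC.Stmts

set_option autoImplicit false

/-!
Base points and types of finite sets of faces; rows of the linear system.
-/

namespace Pool.Agent.Helper98_PSC

open Pool.Agent.PSC Pool.Agent.Helper40_Pisot MeasureTheory

variable {m : ℕ}

/-- The coordinatewise minimum of the vertices. -/
noncomputable def bas (C : Finset (Face m)) : Lat m := fun i =>
  if h : (C.image (fun F => F.1 i)).Nonempty then (C.image (fun F => F.1 i)).min' h else 0

/-- The type: the translate with base point `0`. -/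
noncomputable def nrm (C : Finset (Face m)) : Finset (Face m) := trS (-(bas C)) C

/-- The row of a finite set of cliques. -/
noncomputable def rw (S : Finset (Finset (Face m))) (τ : Finset (Face m)) : R m :=
  ∑ C ∈ S, if nrm C = τ then mon (bas C) else 0

/-- The analytic part: relations between the rows give translation relations. -/
def RelOf (m : ℕ) (σ : Fin (m + 1) → List (Fin (m + 1))) (α l : Fin (m + 1) → ℝ)
    (x0 : ℤ → Fin (m + 1)) (k : ℕ) : Prop :=
  ∀ (TS : Finset (Finset (Face m))) (PS : Finset (Fin (m + 1) × Finset (Finset (Face m)))),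
    (∀ C, C ∈ TS ↔ Clique σ α l x0 k C ∧ bas C = 0) →
    (∀ p ∈ PS, ∃ t : ℝ, Alive l t ((0 : Lat m), p.1) ∧
      ∀ C, C ∈ p.2 ↔ Clique σ α l x0 k C ∧ AliveS l t C ∧ ((0 : Lat m), p.1) ∈ C) →
    ∀ y : {p // p ∈ PS} → R m,
      (∀ τ ∈ TS, ∑ p, y p * rw p.1.2 τ = 0) →
      Rel σ α x0 (fun c => ∑ p, if p.1.1 = c then y p else 0)

theorem tr_tr (v w : Lat m) (F : Face m) : tr v (tr w F) = tr (v + w) F := by
  simp only [tr, add_assoc]

theorem tr_zero (F : Face m) : tr (0 : Lat m) F = F := by
  simp only [tr, zero_add]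

theorem trS_trS (v w : Lat m) (C : Finset (Face m)) : trS v (trS w C) = trS (v + w) C := by
  unfold trS
  rw [Finset.image_image]
  congr 1
  funext F
  exact tr_tr v w F

theorem trS_zero (C : Finset (Face m)) : trS (0 : Lat m) C = C := by
  unfold trS
  have h : (tr (0 : Lat m) : Face m → Face m) = id := by
    funext F; exact tr_zero F
  rw [h, Finset.image_id]

theorem mem_trS {v : Lat m} {C : Finset (Face m)} {F : Face m} :
    F ∈ trS v C ↔ tr (-v) F ∈ C := by
  unfold trS
  rw [Finset.mem_image]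
  constructor
  · rintro ⟨G, hG, rfl⟩
    rw [tr_tr, neg_add_cancel, tr_zero]
    exact hG
  · intro h
    exact ⟨_, h, by rw [tr_tr, add_neg_cancel, tr_zero]⟩

theorem bas_spec {C : Finset (Face m)} (hC : C.Nonempty) (i : Fin (m + 1)) :
    (∃ F ∈ C, F.1 i = bas C i) ∧ ∀ F ∈ C, bas C i ≤ F.1 i := by
  have h : (C.image (fun F => F.1 i)).Nonempty := hC.image _
  have hb : bas C i = (C.image (fun F => F.1 i)).min' h := by
    unfold bas; rw [dif_pos h]
  constructor
  · have := Finset.min'_mem _ h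
    obtain ⟨F, hF, he⟩ := Finset.mem_image.1 this
    exact ⟨F, hF, by rw [hb]; exact he⟩
  · intro F hF
    rw [hb]
    exact Finset.min'_le _ _ (Finset.mem_image_of_mem _ hF)

theorem bas_unique {C : Finset (Face m)} {v : Lat m}
    (h1 : ∀ i, ∃ F ∈ C, F.1 i = v i) (h2 : ∀ i, ∀ F ∈ C, v i ≤ F.1 i) : bas C = v := by
  funext i
  obtain ⟨F, hF, he⟩ := h1 i
  have hC : C.Nonempty := ⟨F, hF⟩
  obtain ⟨⟨G, hG, hGe⟩, h4⟩ := bas_spec hC i
  have h5 := h4 F hF
  have h6 := h2 i G hG
  omega

theorem trS_nonempty {v : Lat m} {C : Finset (Face m)} (hC : C.Nonempty) : (trS v C).Nonempty :=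
  hC.image _

theorem bas_trS (v : Lat m) {C : Finset (Face m)} (hC : C.Nonempty) :
    bas (trS v C) = v + bas C := by
  refine bas_unique ?_ ?_
  · intro i
    obtain ⟨⟨F, hF, he⟩, -⟩ := bas_spec hC i
    refine ⟨tr v F, Finset.mem_image_of_mem _ hF, ?_⟩
    show v i + F.1 i = v i + bas C i
    rw [he]
  · intro i F hF
    obtain ⟨G, hG, rfl⟩ := Finset.mem_image.1 hF
    show v i + bas C i ≤ v i + G.1 i
    have := (bas_spec hC i).2 G hG
    omega

theorem nrm_trS (v : Lat m) {C : Finset (Face m)} (hC : C.Nonempty) :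
    nrm (trS v C) = nrm C := by
  unfold nrm
  rw [bas_trS v hC, trS_trS]
  congr 1
  abel

theorem trS_bas_nrm (C : Finset (Face m)) : trS (bas C) (nrm C) = C := by
  unfold nrm
  rw [trS_trS, add_neg_cancel, trS_zero]

theorem bas_nrm {C : Finset (Face m)} (hC : C.Nonempty) : bas (nrm C) = 0 := by
  unfold nrm
  rw [bas_trS _ hC, neg_add_cancel]

end Pool.Agent.Helper98_PSC
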